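import Pool.Agent.ZP3.StmtsP

/-!
# Squad ZP3, row EVF: evaluation of power series with integral algebraic coefficients
-/

set_option autoImplicit false

open scoped BigOperators

namespace Pool.Agent.ZP3.H90

open Pool.Agent.ZPT Pool.Agent.ZP3

/-- EVF -/
theorem evf : EVFStmt := by
  intro K _ _ _ _ ι S hS t ht f g hf hg
  have hc : ∀ x ∈ Subring.closure (S : Set Qb), ‖ι x‖ ≤ 1 := by
    intro x hx
    induction hx using Subring.closure_induction with
    | mem x hx => exact hS x hx
    | zero => simp
    | one => simp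
    | add x y _ _ hx hy =>
      rw [map_add]
      exact (IsUltrametricDist.norm_add_le_max _ _).trans (max_le hx hy)
    | neg x _ hx => rwa [map_neg, norm_neg]
    | mul x y _ _ hx hy =>
      rw [map_mul, norm_mul]
      exact mul_le_one₀ hx (norm_nonneg _) hy
  have hn : ∀ h : PowerSeries Qb, (∀ n, PowerSeries.coeff n h ∈ Subring.closure (S : Set Qb)) →
      ∀ s : K, ‖s‖ < 1 → ∀ n : ℕ, ‖ι (PowerSeries.coeff n h) * s ^ n‖ ≤ ‖s‖ ^ n := by
    intro h hh s hs n
    rw [norm_mul, norm_pow]
    exact mul_le_of_le_one_left (pow_nonneg (norm_nonneg s) n) (hc _ (hh n))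
  have hsn : ∀ h : PowerSeries Qb, (∀ n, PowerSeries.coeff n h ∈ Subring.closure (S : Set Qb)) →
      ∀ s : K, ‖s‖ < 1 → Summable fun n : ℕ => ‖ι (PowerSeries.coeff n h) * s ^ n‖ := by
    intro h hh s hs
    refine Summable.of_nonneg_of_le (fun n => norm_nonneg _) (hn h hh s hs)
      (summable_geometric_of_lt_one (norm_nonneg s) hs)
  have hfs := hsn f hf t ht
  have hgs := hsn g hg t ht
  refine ⟨?_, ?_, ?_, ?_, ?_, ?_, ?_, ?_⟩
  · -- sum
    unfold evK
    rw [← hfs.of_norm.tsum_add hgs.of_norm]
    refine tsum_congr fun n => ?_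
    rw [map_add, map_add, add_mul]
  · -- product
    unfold evK
    rw [tsum_mul_tsum_eq_tsum_sum_antidiagonal_of_summable_norm hfs hgs]
    refine tsum_congr fun n => ?_
    rw [PowerSeries.coeff_mul, map_sum, Finset.sum_mul]
    refine Finset.sum_congr rfl fun kl hkl => ?_
    rw [Finset.HasAntidiagonal.mem_antidiagonal] at hkl
    rw [map_mul, ← hkl, pow_add]
    ring
  · -- negation
    unfold evK
    rw [← tsum_neg]
    refine tsum_congr fun n => ?_
    rw [map_neg, map_neg, neg_mul]
  · -- constants
    intro a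
    unfold evK
    rw [tsum_eq_single 0]
    · simp
    · intro n hn0
      rw [PowerSeries.coeff_C, if_neg hn0, map_zero, zero_mul]
  · -- the variable
    unfold evK
    rw [tsum_eq_single 1]
    · rw [PowerSeries.coeff_one_X, map_one, one_mul, pow_one]
    · intro n hn1
      rw [PowerSeries.coeff_X, if_neg hn1, map_zero, zero_mul]
  · -- expansion
    intro m hm
    unfold evK
    have hinj : Function.Injective fun n : ℕ => m * n := fun a b hab =>
      Nat.eq_of_mul_eq_mul_left (Nat.pos_of_ne_zero hm) hab
    have hsupp : Function.support (fun n : ℕ =>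
        ι (PowerSeries.coeff n (PowerSeries.expand m hm f)) * t ^ n) ⊆
        Set.range fun n : ℕ => m * n := by
      intro n hn0
      rw [Function.mem_support] at hn0
      by_contra hcon
      apply hn0
      rw [PowerSeries.coeff_expand_of_not_dvd m hm f, map_zero, zero_mul]
      rintro ⟨k, hk⟩
      exact hcon ⟨k, hk.symm⟩
    rw [← hinj.tsum_eq hsupp]
    refine tsum_congr fun n => ?_
    rw [PowerSeries.coeff_expand_mul, pow_mul]
  · -- first order
    unfold evK
    rw [hfs.of_norm.tsum_eq_zero_add]
    have h0 : ι (PowerSeries.coeff 0 f) * t ^ 0 = ι (PowerSeries.constantCoeff f) := by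
      rw [pow_zero, mul_one, PowerSeries.coeff_zero_eq_constantCoeff]
    rw [h0, add_sub_cancel_left]
    refine IsUltrametricDist.norm_tsum_le_of_forall_le_of_nonneg (norm_nonneg t) fun n => ?_
    refine (hn f hf t ht (n + 1)).trans ?_
    rw [pow_succ]
    exact mul_le_of_le_one_left (norm_nonneg t) (pow_le_one₀ (norm_nonneg t) ht.le)
  · -- bound
    unfold evK
    refine IsUltrametricDist.norm_tsum_le_of_forall_le_of_nonneg zero_le_one fun n => ?_
    exact (hn f hf t ht n).trans (pow_le_one₀ (norm_nonneg t) ht.le)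

end Pool.Agent.ZP3.H90
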